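import Pool.Agent.helper80.SV.Spec

/-! Project sv, module SYS. -/

set_option autoImplicit false

namespace Pool.Agent.SV

open MvPolynomial Module

theorem SYS (hEUL : EUL_stmt) (hMHS : MHS_stmt) : SYS_stmt := by
  intro k n d hk hd r p
  ext f
  rw [mem_Sng, ← hMHS k n d]
  have hmem : f ∈ Sys n d p ↔ f ∈ MultiHom n d ∧ ∀ l, f ∈ DoubleAt (p l) := by
    unfold Sys
    rw [Submodule.mem_inf, Submodule.mem_iInf]
  rw [hmem]
  constructor
  · rintro ⟨h1, h2⟩
    exact ⟨h1, fun l i => (h2 l).2 i⟩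
  · rintro ⟨h1, h2⟩
    refine ⟨h1, fun l => ⟨?_, fun i => h2 l i⟩⟩
    have h3 : f ∈ Sec (Sigma.fst : Var n → Fin k) Finset.univ d := by
      rw [← hMHS k n d]
      exact h1
    have h4 := hEUL (Sigma.fst : Var n → Fin k) Finset.univ d f h3 ⟨0, hk⟩ (p l)
    have h5 : ∑ i ∈ Finset.univ.filter (fun i : Var n => (Sigma.fst i : Fin k) = ⟨0, hk⟩),
        p l i * eval (p l) (pderiv i f) = 0 := by
      refine Finset.sum_eq_zero fun i _ => ?_
      rw [h2 l i, mul_zero]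
    rw [h5] at h4
    have h6 : ((d ⟨0, hk⟩ : ℕ) : ℂ) ≠ 0 := by
      have := hd ⟨0, hk⟩
      exact_mod_cast (by omega : d ⟨0, hk⟩ ≠ 0)
    exact (mul_eq_zero.1 h4.symm).resolve_left h6

end Pool.Agent.SV
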